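import Pool.Agent.Helper64.Rig.Basics

/-!
# MP_148db9_ag, packet Inf: infinitesimal rigidity from `StmtT` and `StmtLoc`
-/

namespace Pool.Agent.Helper87.Rig

open Pool.Agent.Helper64.Rig MvPolynomial Module

/-! ## Homogeneous components -/

theorem homogeneousComponent_mul_right {σ : Type} {V E : MvPolynomial σ ℂ} {d : ℕ}
    (hE : E.IsHomogeneous d) (n : ℕ) :
    homogeneousComponent (n + d) (V * E) = homogeneousComponent n V * E := by
  have h1 : V * E = ∑ i ∈ Finset.range (V.totalDegree + 1), homogeneousComponent i V * E := by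
    rw [← Finset.sum_mul, sum_homogeneousComponent]
  rw [h1, map_sum]
  have h2 : ∀ i ∈ Finset.range (V.totalDegree + 1),
      homogeneousComponent (n + d) (homogeneousComponent i V * E) =
        if i = n then homogeneousComponent n V * E else 0 := by
    intro i _
    have h3 : (homogeneousComponent i V * E).IsHomogeneous (i + d) :=
      (homogeneousComponent_isHomogeneous i V).mul hE
    rw [homogeneousComponent_of_mem ((mem_homogeneousSubmodule _ _).2 h3)]
    by_cases hin : i = n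
    · rw [if_pos hin, if_pos (by rw [hin]), hin]
    · rw [if_neg hin, if_neg (fun h => hin (by omega))]
  rw [Finset.sum_congr rfl h2, Finset.sum_ite_eq']
  split_ifs with h4
  · rfl
  · have : homogeneousComponent n V = 0 := by
      refine homogeneousComponent_eq_zero _ _ ?_
      rw [Finset.mem_range] at h4
      omega
    rw [this, zero_mul]

/-! ## The derivation -/

theorem der_mul {σ : Type} [Fintype σ] [DecidableEq σ] (A : Matrix σ σ ℂ)
    (F G : MvPolynomial σ ℂ) : der A (F * G) = F * der A G + G * der A F := by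
  unfold der
  simp only [Finset.mul_sum]
  rw [← Finset.sum_add_distrib]
  refine Finset.sum_congr rfl fun i _ => ?_
  rw [← Finset.sum_add_distrib]
  refine Finset.sum_congr rfl fun j _ => ?_
  rw [Derivation.leibniz]
  simp only [smul_eq_mul]
  ring

theorem der_add {σ : Type} [Fintype σ] [DecidableEq σ] (A : Matrix σ σ ℂ)
    (F G : MvPolynomial σ ℂ) : der A (F + G) = der A F + der A G := by
  unfold der
  simp only [map_add, mul_add, Finset.sum_add_distrib]

theorem der_zero {σ : Type} [Fintype σ] [DecidableEq σ] (A : Matrix σ σ ℂ) :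
    der A (0 : MvPolynomial σ ℂ) = 0 := by
  unfold der
  simp only [map_zero, mul_zero, Finset.sum_const_zero]

theorem der_sum {σ ι : Type} [Fintype σ] [DecidableEq σ] (A : Matrix σ σ ℂ) (s : Finset ι)
    (F : ι → MvPolynomial σ ℂ) : der A (∑ t ∈ s, F t) = ∑ t ∈ s, der A (F t) := by
  classical
  induction s using Finset.induction_on with
  | empty => simp [der_zero]
  | insert a s ha ih => rw [Finset.sum_insert ha, Finset.sum_insert ha, der_add, ih]

/-! ## The family of the pairs -/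

/-- The data of a first order deformation. -/
structure DD (I : Ideal (MvPolynomial Jx ℂ)) (m₀ : ℕ)
    (D : ℕ → Submodule ℂ (MvPolynomial Jx ℂ × MvPolynomial Jx ℂ)) : Prop where
  h1 : ∀ m ≥ m₀, ∀ z ∈ D m, z.1.IsHomogeneous m ∧ z.2.IsHomogeneous m ∧ z.1 ∈ I
  h2 : ∀ m ≥ m₀, ∀ G ∈ I, G.IsHomogeneous m → ∃ H, (G, H) ∈ D m
  h3 : ∀ m ≥ m₀, ∀ H : MvPolynomial Jx ℂ, H.IsHomogeneous m → ((0, H) ∈ D m ↔ H ∈ I)
  h4 : ∀ m ≥ m₀, ∀ z ∈ D m, ∀ i, (X i * z.1, X i * z.2) ∈ D (m + 1)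

theorem DD.mono_mul {I : Ideal (MvPolynomial Jx ℂ)} {m₀ : ℕ}
    {D : ℕ → Submodule ℂ (MvPolynomial Jx ℂ × MvPolynomial Jx ℂ)} (hD : DD I m₀ D)
    (a : Jx →₀ ℕ) : ∀ m ≥ m₀, ∀ z ∈ D m,
      (monomial a (1 : ℂ) * z.1, monomial a (1 : ℂ) * z.2) ∈ D (m + a.degree) := by
  induction a using Finsupp.induction_linear with
  | zero =>
    intro m _ z hz
    have : (monomial (0 : Jx →₀ ℕ) (1 : ℂ)) = 1 := rfl
    rw [this, one_mul, one_mul]
    simpa using hz
  | add a b ha hb =>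
    intro m hm z hz
    have h1 := ha (m + b.degree) (by omega) _ (hb m hm z hz)
    have h2 : (monomial (a + b) (1 : ℂ)) = monomial a 1 * monomial b 1 := by
      rw [monomial_mul, one_mul]
    rw [h2, mul_assoc, mul_assoc]
    have h3 : m + (a + b).degree = m + b.degree + a.degree := by
      rw [map_add]; ring
    rw [h3]
    exact h1
  | single i n =>
    induction n with
    | zero =>
      intro m _ z hz
      have : (monomial (Finsupp.single i 0) (1 : ℂ)) = 1 := by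
        rw [Finsupp.single_zero]; rfl
      rw [this, one_mul, one_mul]
      simpa using hz
    | succ n ih =>
      intro m hm z hz
      have h1 := ih m hm z hz
      have h2 := hD.h4 (m + (Finsupp.single i n).degree) (by omega) _ h1 i
      have h3 : (monomial (Finsupp.single i (n + 1)) (1 : ℂ)) =
          X i * monomial (Finsupp.single i n) 1 := by
        rw [X, monomial_mul, one_mul, ← Finsupp.single_add, add_comm 1 n]
      rw [h3, mul_assoc, mul_assoc]
      have h4 : m + (Finsupp.single i (n + 1)).degree = m + (Finsupp.single i n).degree + 1 := by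
        simp only [Finsupp.degree_single]; ring
      rw [h4]
      exact h2

theorem DD.mul {I : Ideal (MvPolynomial Jx ℂ)} {m₀ : ℕ}
    {D : ℕ → Submodule ℂ (MvPolynomial Jx ℂ × MvPolynomial Jx ℂ)} (hD : DD I m₀ D)
    {V : MvPolynomial Jx ℂ} {e : ℕ} (hV : V.IsHomogeneous e) {m : ℕ} (hm : m₀ ≤ m)
    {F G : MvPolynomial Jx ℂ} (hz : (F, G) ∈ D m) : (V * F, V * G) ∈ D (m + e) := by
  have h1 : (V * F, V * G) = ∑ a ∈ V.support, coeff a V •
      (monomial a (1 : ℂ) * F, monomial a (1 : ℂ) * G) := by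
    have h2 : V = ∑ a ∈ V.support, coeff a V • monomial a (1 : ℂ) := by
      conv_lhs => rw [V.as_sum]
      refine Finset.sum_congr rfl fun a _ => ?_
      rw [smul_monomial, smul_eq_mul, mul_one]
    refine Prod.ext ?_ ?_
    · rw [Prod.fst_sum]
      conv_lhs => rw [h2]
      simp only [Finset.sum_mul, smul_mul_assoc, Prod.smul_fst]
    · rw [Prod.snd_sum]
      conv_lhs => rw [h2]
      simp only [Finset.sum_mul, smul_mul_assoc, Prod.smul_snd]
  rw [h1]
  refine Submodule.sum_mem _ fun a ha => Submodule.smul_mem _ _ ?_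
  have h3 := hD.mono_mul a m hm _ hz
  rwa [degree_of_homog hV (mem_support_iff.1 ha)] at h3

variable {K : Type} [Field K] [Algebra ℂ K] {ζ : ℂ} {x : Jx → K}

/-- The value of the deformation on the form `G` of degree `d` is `f`. -/
def Val (x : Jx → K) (m₀ : ℕ) (D : ℕ → Submodule ℂ (MvPolynomial Jx ℂ × MvPolynomial Jx ℂ))
    (G : MvPolynomial Jx ℂ) (d : ℕ) (f : K) : Prop :=
  ∀ e, m₀ ≤ d + e → ∀ V : MvPolynomial Jx ℂ, V.IsHomogeneous e → ∀ H, (V * G, H) ∈ D (d + e) →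
    aeval x H = aeval x V * f

theorem mem_II {G : MvPolynomial Jx ℂ} : G ∈ II x ↔ aeval x G = 0 := RingHom.mem_ker

/-- Two pairs with the same first entry have the same value. -/
theorem DD.same {m₀ : ℕ} {D : ℕ → Submodule ℂ (MvPolynomial Jx ℂ × MvPolynomial Jx ℂ)}
    (hD : DD (II x) m₀ D) {m : ℕ} (hm : m₀ ≤ m) {G H H' : MvPolynomial Jx ℂ}
    (h : (G, H) ∈ D m) (h' : (G, H') ∈ D m) : aeval x H = aeval x H' := by
  have h1 : (0, H - H') ∈ D m := by
    have := Submodule.sub_mem _ h h'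
    rwa [Prod.mk_sub_mk, sub_self] at this
  have h2 : (H - H').IsHomogeneous m := by
    have := (hD.h1 m hm _ h1).2.1
    exact this
  have h3 := mem_II.1 ((hD.h3 m hm _ h2).1 h1)
  rwa [map_sub, sub_eq_zero] at h3

theorem DD.exists_val (hx : Cov ζ x) {m₀ : ℕ}
    {D : ℕ → Submodule ℂ (MvPolynomial Jx ℂ × MvPolynomial Jx ℂ)}
    (hD : DD (II x) m₀ D) {G : MvPolynomial Jx ℂ} {d : ℕ} (hG : G.IsHomogeneous d)
    (hGI : G ∈ II x) : ∃ f, Val x m₀ D G d f := by
  have hX : ((X ((0, 0) : Jx) : MvPolynomial Jx ℂ) ^ m₀).IsHomogeneous m₀ := by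
    have := (isHomogeneous_X ℂ ((0, 0) : Jx)).pow m₀
    rwa [one_mul] at this
  obtain ⟨H₀, hH₀⟩ := hD.h2 (d + m₀) (by omega) (X (0, 0) ^ m₀ * G)
    (Ideal.mul_mem_left _ _ hGI) (by rw [add_comm]; exact hX.mul hG)
  refine ⟨aeval x H₀ / x (0, 0) ^ m₀, fun e he V hV H hH => ?_⟩
  have h1 := hD.mul hX he hH
  have h2 := hD.mul hV (by omega) hH₀
  have h3 : d + m₀ + e = d + e + m₀ := by ring
  rw [h3] at h2
  have h4 : V * (X (0, 0) ^ m₀ * G) = X (0, 0) ^ m₀ * (V * G) := by ring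
  rw [h4] at h2
  have h5 := hD.same (by omega) h1 h2
  rw [map_mul, map_mul, map_pow, aeval_X] at h5
  have h6 : x (0, 0) ^ m₀ ≠ 0 := pow_ne_zero _ (x_ne hx _)
  rw [mul_div_assoc', eq_div_iff h6, ← h5]
  ring

theorem Val.unique (hx : Cov ζ x) {m₀ : ℕ}
    {D : ℕ → Submodule ℂ (MvPolynomial Jx ℂ × MvPolynomial Jx ℂ)}
    (hD : DD (II x) m₀ D) {G : MvPolynomial Jx ℂ} {d : ℕ} (hG : G.IsHomogeneous d)
    (hGI : G ∈ II x) {f f' : K} (h : Val x m₀ D G d f) (h' : Val x m₀ D G d f') : f = f' := by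
  have hX : ((X ((0, 0) : Jx) : MvPolynomial Jx ℂ) ^ m₀).IsHomogeneous m₀ := by
    have := (isHomogeneous_X ℂ ((0, 0) : Jx)).pow m₀
    rwa [one_mul] at this
  obtain ⟨H₀, hH₀⟩ := hD.h2 (d + m₀) (by omega) (X (0, 0) ^ m₀ * G)
    (Ideal.mul_mem_left _ _ hGI) (by rw [add_comm]; exact hX.mul hG)
  have h1 := h m₀ (by omega) _ hX _ hH₀
  have h2 := h' m₀ (by omega) _ hX _ hH₀
  have h6 : x (0, 0) ^ m₀ ≠ 0 := pow_ne_zero _ (x_ne hx _)
  rw [h1, map_pow, aeval_X] at h2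
  exact mul_left_cancel₀ h6 h2

theorem DD.val_sum {m₀ : ℕ}
    {D : ℕ → Submodule ℂ (MvPolynomial Jx ℂ × MvPolynomial Jx ℂ)}
    (hD : DD (II x) m₀ D) {ι : Type} (s : Finset ι) (V G : ι → MvPolynomial Jx ℂ) (f : ι → K)
    (e d : ℕ) (hV : ∀ t ∈ s, (V t).IsHomogeneous e) (hG : ∀ t ∈ s, (G t).IsHomogeneous d)
    (hGI : ∀ t ∈ s, G t ∈ II x) (hval : ∀ t ∈ s, Val x m₀ D (G t) d (f t)) :
    Val x m₀ D (∑ t ∈ s, V t * G t) (d + e) (∑ t ∈ s, aeval x (V t) * f t) := by
  classical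
  intro e' he' W hW H hH
  have h1 : ∀ t ∈ s, ∃ H, (W * V t * G t, H) ∈ D (d + e + e') := fun t ht =>
    hD.h2 _ he' _ (Ideal.mul_mem_left _ _ (hGI t ht)) (by
      have := ((hW.mul (hV t ht)).mul (hG t ht))
      rwa [show e' + e + d = d + e + e' by ring] at this)
  choose! L hL using h1
  have h2 : ∀ t ∈ s, aeval x (L t) = aeval x W * (aeval x (V t) * f t) := by
    intro t ht
    have h3 := hval t ht (e + e') (by omega) (W * V t) (by
      have := hW.mul (hV t ht)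
      rwa [add_comm e' e] at this) (L t) (by rw [← add_assoc]; exact hL t ht)
    rw [h3, map_mul, mul_assoc]
  have h3 : (∑ t ∈ s, W * V t * G t, ∑ t ∈ s, L t) ∈ D (d + e + e') := by
    have := Submodule.sum_mem (D (d + e + e')) hL
    have h4 : (∑ t ∈ s, W * V t * G t, ∑ t ∈ s, L t) =
        ∑ t ∈ s, (W * V t * G t, L t) := by
      refine Prod.ext ?_ ?_
      · rw [Prod.fst_sum]
      · rw [Prod.snd_sum]
    rwa [h4]
  have h4 : W * ∑ t ∈ s, V t * G t = ∑ t ∈ s, W * V t * G t := by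
    rw [Finset.mul_sum]
    exact Finset.sum_congr rfl fun t _ => by rw [mul_assoc]
  rw [h4] at hH
  rw [hD.same he' hH h3, map_sum, Finset.mul_sum]
  exact Finset.sum_congr rfl h2

/-! ## The relation between the equations -/

theorem pr_X_homog (i : Fin 3) : (pr (X : Jx → MvPolynomial Jx ℂ) i).IsHomogeneous 5 := by
  have := IsHomogeneous.prod (R := ℂ) (σ := Jx) Finset.univ (fun k : Fin 5 => X (i, k)) (fun _ => 1)
    fun k _ => isHomogeneous_X ℂ (i, k)
  simpa [pr] using this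

theorem el_X_homog (j : Jx) : (el ζ (X : Jx → MvPolynomial Jx ℂ) j).IsHomogeneous 5 := by
  unfold el
  refine (pr_X_homog _).add ?_
  have := (isHomogeneous_C Jx (ζ ^ (j.2 : ℕ))).mul (pr_X_homog (j.1 + 2))
  rwa [zero_add] at this

theorem EE_homog (j : Jx) : (EE ζ j).IsHomogeneous 5 := by
  unfold EE
  refine IsHomogeneous.add ?_ (el_X_homog j)
  have := (isHomogeneous_X ℂ j).pow 5
  rwa [one_mul] at this

theorem aeval_pr (i : Fin 3) : aeval x (pr (X : Jx → MvPolynomial Jx ℂ) i) = pr x i := by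
  unfold pr
  simp only [map_prod, aeval_X]

theorem aeval_el (j : Jx) : aeval x (el ζ (X : Jx → MvPolynomial Jx ℂ) j) = el ζ x j := by
  unfold el
  rw [map_add, map_mul, aeval_pr, aeval_pr, AlgHom.commutes]

theorem EE_mem (hx : Cov ζ x) (j : Jx) : EE ζ j ∈ II x := by
  rw [mem_II]
  unfold EE
  rw [map_add, map_pow, aeval_X, aeval_el]
  exact hx.rel j

/-- The cofactors. -/
noncomputable def QQ (ζ : ℂ) (i : Fin 3) (k : Fin 5) : MvPolynomial Jx ℂ :=
  ![(-el ζ X (i, 1)) * (-el ζ X (i, 2)) * (-el ζ X (i, 3)) * (-el ζ X (i, 4)),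
    X (i, 0) ^ 5 * (-el ζ X (i, 2)) * (-el ζ X (i, 3)) * (-el ζ X (i, 4)),
    X (i, 0) ^ 5 * X (i, 1) ^ 5 * (-el ζ X (i, 3)) * (-el ζ X (i, 4)),
    X (i, 0) ^ 5 * X (i, 1) ^ 5 * X (i, 2) ^ 5 * (-el ζ X (i, 4)),
    X (i, 0) ^ 5 * X (i, 1) ^ 5 * X (i, 2) ^ 5 * X (i, 3) ^ 5] k

theorem QQ_homog (i : Fin 3) (k : Fin 5) : (QQ ζ i k).IsHomogeneous 20 := by
  have hX : ∀ j : Jx, ((X j : MvPolynomial Jx ℂ) ^ 5).IsHomogeneous 5 := fun j => by
    have := (isHomogeneous_X ℂ j).pow 5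
    rwa [one_mul] at this
  have hE : ∀ j : Jx, (-el ζ (X : Jx → MvPolynomial Jx ℂ) j).IsHomogeneous 5 := fun j =>
    (el_X_homog j).neg
  fin_cases k
  · exact (((hE _).mul (hE _)).mul (hE _)).mul (hE _)
  · exact (((hX _).mul (hE _)).mul (hE _)).mul (hE _)
  · exact (((hX _).mul (hX _)).mul (hE _)).mul (hE _)
  · exact (((hX _).mul (hX _)).mul (hX _)).mul (hE _)
  · exact (((hX _).mul (hX _)).mul (hX _)).mul (hX _)

theorem QQ_sum (hζ : IsPrimitiveRoot ζ 5) (i : Fin 3) :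
    ∑ k, QQ ζ i k * EE ζ (i, k) = pr X i ^ 5 + pr X (i + 1) ^ 5 + pr X (i + 2) ^ 5 := by
  have h1 : (pr (X : Jx → MvPolynomial Jx ℂ) (i + 1)) ^ 5 + pr X (i + 2) ^ 5 =
      ∏ k : Fin 5, el ζ X (i, k) := (prod_add_zeta hζ _ _).symm
  have h2 : (pr (X : Jx → MvPolynomial Jx ℂ) i) ^ 5 = ∏ k : Fin 5, X (i, k) ^ 5 := by
    unfold pr
    rw [Finset.prod_pow]
  rw [add_assoc, h1, h2]
  simp only [Fin.sum_univ_five, Fin.prod_univ_five, EE]
  simp only [QQ, Matrix.cons_val_zero, Matrix.cons_val_one, Matrix.cons_val]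
  ring

theorem aeval_QQ (hx : Cov ζ x) (i : Fin 3) (k : Fin 5) :
    aeval x (QQ ζ i k) = hat x (i, k) := by
  have h0 : x (i, k) ^ 5 ≠ 0 := pow_ne_zero _ (x_ne hx _)
  refine mul_right_cancel₀ h0 ?_
  rw [hat_mul]
  have h2 : (pr x i) ^ 5 = ∏ k : Fin 5, x (i, k) ^ 5 := by
    unfold pr
    rw [Finset.prod_pow]
  show _ = pr x i ^ 5
  rw [h2, Fin.prod_univ_five]
  have hE : ∀ j, aeval x (-el ζ (X : Jx → MvPolynomial Jx ℂ) j) = x j ^ 5 := fun j => by
    rw [map_neg, aeval_el, pow_five hx]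
  fin_cases k
  · show aeval x ((-el ζ X (i, 1)) * (-el ζ X (i, 2)) * (-el ζ X (i, 3)) * (-el ζ X (i, 4))) * x (i, 0) ^ 5 = _
    simp only [map_mul, hE]
    ring
  · show aeval x (X (i, 0) ^ 5 * (-el ζ X (i, 2)) * (-el ζ X (i, 3)) * (-el ζ X (i, 4))) * x (i, 1) ^ 5 = _
    simp only [map_mul, hE, map_pow, aeval_X]
    ring
  · show aeval x (X (i, 0) ^ 5 * X (i, 1) ^ 5 * (-el ζ X (i, 3)) * (-el ζ X (i, 4))) * x (i, 2) ^ 5 = _
    simp only [map_mul, hE, map_pow, aeval_X]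
    ring
  · show aeval x (X (i, 0) ^ 5 * X (i, 1) ^ 5 * X (i, 2) ^ 5 * (-el ζ X (i, 4))) * x (i, 3) ^ 5 = _
    simp only [map_mul, hE, map_pow, aeval_X]
    ring
  · show aeval x (X (i, 0) ^ 5 * X (i, 1) ^ 5 * X (i, 2) ^ 5 * X (i, 3) ^ 5) * x (i, 4) ^ 5 = _
    simp only [map_mul, map_pow, aeval_X]

theorem rel_sym (i : Fin 3) : pr (X : Jx → MvPolynomial Jx ℂ) i ^ 5 + pr X (i + 1) ^ 5 +
    pr X (i + 2) ^ 5 = pr X 0 ^ 5 + pr X 1 ^ 5 + pr X 2 ^ 5 := by
  fin_cases i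
  · rfl
  · show pr (X : Jx → MvPolynomial Jx ℂ) 1 ^ 5 + pr X 2 ^ 5 + pr X 0 ^ 5 = _
    ring
  · show pr (X : Jx → MvPolynomial Jx ℂ) 2 ^ 5 + pr X 0 ^ 5 + pr X 1 ^ 5 = _
    ring

theorem aeval_der_mul (A : Matrix Jx Jx ℂ) (F G : MvPolynomial Jx ℂ) (hG : aeval x G = 0) :
    aeval x (der A (F * G)) = aeval x F * aeval x (der A G) := by
  rw [der_mul, map_add, map_mul, map_mul, hG, zero_mul, add_zero]

theorem pf_Inf (hT : StmtT) (hLoc : StmtLoc) : StmtInf := by
  intro K _ _ ζ x hx m₀ D h1 h2 h3 h4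
  have hD : DD (II x) m₀ D := ⟨h1, h2, h3, h4⟩
  have hE : ∀ j, ∃ f, Val x m₀ D (EE ζ j) 5 f := fun j =>
    hD.exists_val hx (EE_homog j) (EE_mem hx j)
  choose f hf using hE
  -- the regularity
  have hreg : ∀ j, ∃ e : ℕ, ∀ v ∈ VV x e, v * f j ∈ VV x (e + 5) := by
    intro j
    refine ⟨m₀, fun v hv => ?_⟩
    obtain ⟨V, hV, rfl⟩ := mem_VV.1 hv
    obtain ⟨H, hH⟩ := hD.h2 (5 + m₀) (by omega) (V * EE ζ j)
      (Ideal.mul_mem_left _ _ (EE_mem hx j)) (by rw [add_comm]; exact hV.mul (EE_homog j))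
    have h5 := hf j m₀ (by omega) V hV H hH
    rw [← h5]
    have h6 := (hD.h1 _ (by omega) _ hH).2.1
    rw [add_comm]
    exact mem_VV.2 ⟨H, h6, rfl⟩
  -- the relation
  have hval : ∀ i : Fin 3, Val x m₀ D (pr X 0 ^ 5 + pr X 1 ^ 5 + pr X 2 ^ 5) 25
      (∑ k, hat x (i, k) * f (i, k)) := by
    intro i
    have h5 := hD.val_sum Finset.univ (fun k : Fin 5 => QQ ζ i k) (fun k => EE ζ (i, k))
      (fun k => f (i, k)) 20 5 (fun k _ => QQ_homog i k) (fun k _ => EE_homog _)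
      (fun k _ => EE_mem hx _) (fun k _ => hf (i, k))
    rw [QQ_sum hx.prim, rel_sym] at h5
    simpa only [aeval_QQ hx] using h5
  have hhom : (pr (X : Jx → MvPolynomial Jx ℂ) 0 ^ 5 + pr X 1 ^ 5 + pr X 2 ^ 5).IsHomogeneous 25 :=
    (((pr_X_homog 0).pow 5).add ((pr_X_homog 1).pow 5)).add ((pr_X_homog 2).pow 5)
  have hmem : (pr (X : Jx → MvPolynomial Jx ℂ) 0 ^ 5 + pr X 1 ^ 5 + pr X 2 ^ 5) ∈ II x := by
    rw [mem_II]
    simp only [map_add, map_pow, aeval_pr]
    exact fermat hx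
  have hrel : ∀ i : Fin 3, ∑ k, hat x (i, k) * f (i, k) = ∑ k, hat x (0, k) * f (0, k) :=
    fun i => Val.unique hx hD hhom hmem (hval i) (hval 0)
  obtain ⟨A, hA⟩ := hT K ζ x hx f hreg hrel
  refine ⟨A, fun m hm z hz => ?_⟩
  obtain ⟨G, H⟩ := z
  obtain ⟨hG, hH, hGI⟩ := hD.h1 m hm _ hz
  simp only at hG hH hGI
  rw [mem_II, map_sub]
  -- the value at `G`
  obtain ⟨g, hg⟩ := hD.exists_val hx hG hGI
  have hgH : aeval x H = g := by
    have := hg 0 (by omega) 1 (isHomogeneous_one _ _) H (by rw [one_mul]; exact hz)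
    rwa [map_one, one_mul] at this
  obtain ⟨U, hU, hUG⟩ := hLoc K ζ x hx G (mem_II.1 hGI)
  obtain ⟨e, he⟩ : ∃ e, aeval x (homogeneousComponent e U) ≠ 0 := by
    by_contra hcon
    push Not at hcon
    apply hU
    rw [← sum_homogeneousComponent U, map_sum]
    exact Finset.sum_eq_zero fun e _ => hcon e
  obtain ⟨W, hW⟩ := (Ideal.mem_span_range_iff_exists_fun).1 hUG
  set U' : MvPolynomial Jx ℂ := X ((0, 0) : Jx) ^ 5 * homogeneousComponent e U with hU'
  have hX5 : ((X ((0, 0) : Jx) : MvPolynomial Jx ℂ) ^ 5).IsHomogeneous 5 := by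
    have := (isHomogeneous_X ℂ ((0, 0) : Jx)).pow 5
    rwa [one_mul] at this
  have hU'h : U'.IsHomogeneous (5 + e) := hX5.mul (homogeneousComponent_isHomogeneous e U)
  have hU'x : aeval x U' ≠ 0 := by
    rw [hU', map_mul, map_pow, aeval_X]
    exact mul_ne_zero (pow_ne_zero _ (x_ne hx _)) he
  have hdec : U' * G = ∑ j, (homogeneousComponent (e + m) (X (0, 0) ^ 5 * W j)) * EE ζ j := by
    have h5 : (X ((0, 0) : Jx) ^ 5 * U) * G = ∑ j, (X (0, 0) ^ 5 * W j) * EE ζ j := by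
      rw [mul_assoc, ← hW, Finset.mul_sum]
      exact Finset.sum_congr rfl fun j _ => by ring
    have h6 := congrArg (homogeneousComponent (e + m + 5)) h5
    rw [map_sum] at h6
    simp only [homogeneousComponent_mul_right (EE_homog _)] at h6
    rw [← h6, show e + m + 5 = (e + 5) + m by ring, homogeneousComponent_mul_right hG,
      mul_comm (X ((0, 0) : Jx) ^ 5) U, homogeneousComponent_mul_right hX5, hU',
      mul_comm (X ((0, 0) : Jx) ^ 5)]
  have hv1 : Val x m₀ D (U' * G) (m + (5 + e)) (aeval x U' * g) := by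
    have := hD.val_sum (Finset.univ : Finset Unit) (fun _ => U') (fun _ => G) (fun _ => g) (5 + e) m
      (fun _ _ => hU'h) (fun _ _ => hG) (fun _ _ => hGI) (fun _ _ => hg)
    simpa using this
  have hv2 : Val x m₀ D (U' * G) (m + (5 + e))
      (∑ j, aeval x (homogeneousComponent (e + m) (X (0, 0) ^ 5 * W j)) * f j) := by
    rw [hdec, show m + (5 + e) = 5 + (e + m) by ring]
    exact hD.val_sum Finset.univ _ _ f (e + m) 5
      (fun _ _ => homogeneousComponent_isHomogeneous _ _) (fun j _ => EE_homog j)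
      (fun j _ => EE_mem hx j) (fun j _ => hf j)
  have hUGh : (U' * G).IsHomogeneous (m + (5 + e)) := by
    have := hU'h.mul hG
    rwa [add_comm] at this
  have hkey := Val.unique hx hD hUGh (Ideal.mul_mem_left _ _ hGI) hv1 hv2
  have hder : aeval x U' * aeval x (der A G) =
      ∑ j, aeval x (homogeneousComponent (e + m) (X (0, 0) ^ 5 * W j)) * f j := by
    rw [← aeval_der_mul A U' G (mem_II.1 hGI), hdec, der_sum, map_sum]
    refine Finset.sum_congr rfl fun j _ => ?_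
    rw [aeval_der_mul A _ _ (mem_II.1 (EE_mem hx j)), hA j]
  rw [← hder] at hkey
  have := mul_left_cancel₀ hU'x hkey
  rw [hgH, this, sub_self]

end Pool.Agent.Helper87.Rig
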