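import Pool.Agent.Helper64.Rig.Basics

/-!
# MP_148db9_ag, packet Spread: from formal sections to sections near a point
-/

namespace Pool.Agent.Helper87.Rig

open Pool.Agent.Helper64.Rig MvPolynomial Module

theorem range_of_comap_map {R B : Type*} [CommRing R] [CommRing B] (f : R →+* B) (p : Ideal R)
    [p.IsPrime] (h : (p.map f).comap f ≤ p) : ∃ q : Ideal B, q.IsPrime ∧ q.comap f = p := by
  obtain ⟨q, hIq, hq, hle⟩ := Ideal.exists_ideal_comap_le_prime p (p.map f) h
  exact ⟨q, hq, le_antisymm hle (Ideal.map_le_iff_le_comap.1 hIq)⟩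

/-- A complex point above a complex point in the range. -/
theorem exists_point {R B : Type} [CommRing R] [Algebra ℂ R] [Algebra.FiniteType ℂ R]
    [CommRing B] [Algebra R B] [Algebra ℂ B] [IsScalarTower ℂ R B] [Algebra.FiniteType R B]
    (x : R →ₐ[ℂ] ℂ) (q : Ideal B) (hq : q.IsPrime)
    (hqx : q.comap (algebraMap R B) = RingHom.ker x) :
    ∃ y : B →ₐ[ℂ] ℂ, ∀ a : R, y (algebraMap R B a) = x a := by
  obtain ⟨M, hM, hqM⟩ := Ideal.exists_le_maximal q hq.ne_top
  have : Algebra.FiniteType ℂ B := Algebra.FiniteType.trans (S := R) inferInstance inferInstance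
  let _ : Field (B ⧸ M) := Ideal.Quotient.field M
  have : Algebra.FiniteType ℂ (B ⧸ M) :=
    Algebra.FiniteType.of_surjective (Ideal.Quotient.mkₐ ℂ M) (Ideal.Quotient.mkₐ_surjective ℂ M)
  have : Module.Finite ℂ (B ⧸ M) := finite_of_finite_type_of_isJacobsonRing ℂ (B ⧸ M)
  have hbij : Function.Bijective (algebraMap ℂ (B ⧸ M)) :=
    IsAlgClosed.algebraMap_bijective_of_isIntegral
  let e : ℂ ≃ₐ[ℂ] (B ⧸ M) := AlgEquiv.ofBijective (Algebra.ofId ℂ (B ⧸ M)) hbij
  let y : B →ₐ[ℂ] ℂ := (e.symm : (B ⧸ M) →ₐ[ℂ] ℂ).comp (Ideal.Quotient.mkₐ ℂ M)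
  have hy : ∀ b ∈ M, y b = 0 := by
    intro b hb
    have : Ideal.Quotient.mkₐ ℂ M b = 0 := Ideal.Quotient.eq_zero_iff_mem.2 hb
    show e.symm (Ideal.Quotient.mkₐ ℂ M b) = 0
    rw [this, map_zero]
  refine ⟨y, fun a => ?_⟩
  have h1 : a - algebraMap ℂ R (x a) ∈ RingHom.ker x := by
    rw [RingHom.mem_ker, map_sub, AlgHom.commutes]
    simp
  rw [← hqx] at h1
  have h2 := hy _ (hqM (Ideal.mem_comap.1 h1))
  rw [map_sub, map_sub, ← IsScalarTower.algebraMap_apply, AlgHom.commutes, sub_eq_zero] at h2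
  rw [h2]
  rfl

theorem pf_Spread : StmtSpread := by
  intro R B _ _ _ _ _ _ _ _ x₀ hB
  have : IsNoetherianRing R := Algebra.FiniteType.isNoetherianRing ℂ R
  have hmp : (RingHom.ker x₀).IsPrime := RingHom.ker_isPrime _
  -- the points specialising to `x₀` are in the range
  have h1 : ∀ p : Ideal R, p.IsPrime → p ≤ RingHom.ker x₀ →
      ∃ q : Ideal B, q.IsPrime ∧ q.comap (algebraMap R B) = p := by
    intro p hp hpm
    refine range_of_comap_map _ p ?_
    intro s hs
    rw [Ideal.mem_comap] at hs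
    have h2 : ∀ k : ℕ, s ∈ p ⊔ (RingHom.ker x₀) ^ k := by
      intro k
      obtain ⟨φ⟩ := hB k
      have h3 : (p.map (algebraMap R B)).map (φ : B →+* R ⧸ (RingHom.ker x₀) ^ k) =
          p.map (Ideal.Quotient.mk ((RingHom.ker x₀) ^ k)) := by
        rw [Ideal.map_map]
        congr 1
        ext a
        exact φ.commutes a
      have h4 : Ideal.Quotient.mk ((RingHom.ker x₀) ^ k) s ∈
          p.map (Ideal.Quotient.mk ((RingHom.ker x₀) ^ k)) := by
        rw [← h3]
        have := Ideal.mem_map_of_mem (φ : B →+* R ⧸ (RingHom.ker x₀) ^ k) hs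
        have h5 : (φ : B →+* R ⧸ (RingHom.ker x₀) ^ k) (algebraMap R B s) =
          Ideal.Quotient.mk ((RingHom.ker x₀) ^ k) s := φ.commutes s
        rwa [h5] at this
      rw [← Ideal.mem_comap, Ideal.comap_map_of_surjective _ Ideal.Quotient.mk_surjective,
        ← RingHom.ker_eq_comap_bot, Ideal.mk_ker] at h4
      exact h4
    have h5 : Ideal.Quotient.mk p s ∈
        ⨅ k : ℕ, ((RingHom.ker x₀).map (Ideal.Quotient.mk p)) ^ k := by
      rw [Ideal.mem_iInf]
      intro k
      rw [← Ideal.map_pow, Ideal.mem_map_iff_of_surjective _ Ideal.Quotient.mk_surjective]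
      obtain ⟨a, ha, b, hb, hab⟩ := Submodule.mem_sup.1 (h2 k)
      refine ⟨b, hb, ?_⟩
      rw [← hab, map_add, Ideal.Quotient.eq_zero_iff_mem.2 ha, zero_add]
    rw [Ideal.iInf_pow_eq_bot_of_isDomain, Ideal.mem_bot, Ideal.Quotient.eq_zero_iff_mem] at h5
    · exact h5
    · intro htop
      have : (RingHom.ker x₀).map (Ideal.Quotient.mk p) ≠ ⊤ := by
        rw [Ideal.ne_top_iff_one]
        intro h1
        rw [Ideal.mem_map_iff_of_surjective _ Ideal.Quotient.mk_surjective] at h1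
        obtain ⟨a, ha, ha1⟩ := h1
        have h6 : a - 1 ∈ p := by
          rw [← Ideal.Quotient.eq_zero_iff_mem, map_sub, ha1, map_one, sub_self]
        have h7 : (1 : R) ∈ RingHom.ker x₀ := by
          have := Ideal.sub_mem _ ha (hpm h6)
          rwa [sub_sub_cancel] at this
        exact hmp.ne_top ((Ideal.eq_top_iff_one _).2 h7)
      exact this htop
  -- the complement of the range is constructible
  have hfp : (algebraMap R B).FinitePresentation := by
    rw [RingHom.finitePresentation_algebraMap]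
    exact (Algebra.FinitePresentation.of_finiteType (R := R) (A := B)).1 inferInstance
  have hc := (PrimeSpectrum.isConstructible_range_comap hfp).compl
  obtain ⟨T, _, g, hg⟩ := PrimeSpectrum.exists_range_eq_of_isConstructible hc
  have h8 : ¬ RingHom.ker g ≤ RingHom.ker x₀ := by
    intro hle
    obtain ⟨p, hp, hpm⟩ := Ideal.exists_minimalPrimes_le hle
    have := hp.1.1
    obtain ⟨p', hp', -, hpp'⟩ := Ideal.exists_comap_eq_of_mem_minimalPrimes (I := ⊥) g p (by
      rwa [← RingHom.ker_eq_comap_bot])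
    have h9 : (⟨p, hp.1.1⟩ : PrimeSpectrum R) ∈ Set.range (PrimeSpectrum.comap g) :=
      ⟨⟨p', hp'⟩, PrimeSpectrum.ext hpp'⟩
    rw [hg] at h9
    obtain ⟨q, hq, hqp⟩ := h1 p hp.1.1 hpm
    exact h9 ⟨⟨q, hq⟩, PrimeSpectrum.ext hqp⟩
  obtain ⟨r, hr, hrx⟩ := Set.not_subset.1 h8
  refine ⟨r, fun h => hrx (by rw [SetLike.mem_coe, RingHom.mem_ker]; exact h), fun x hx => ?_⟩
  have hxp : (RingHom.ker x).IsPrime := RingHom.ker_isPrime _
  have h10 : (⟨RingHom.ker x, hxp⟩ : PrimeSpectrum R) ∉ Set.range (PrimeSpectrum.comap g) := by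
    rintro ⟨t, ht⟩
    have h11 : r ∈ (PrimeSpectrum.comap g t).asIdeal := by
      rw [PrimeSpectrum.comap_asIdeal, Ideal.mem_comap, RingHom.mem_ker.1 hr]
      exact Ideal.zero_mem _
    rw [ht] at h11
    exact hx (RingHom.mem_ker.1 h11)
  rw [hg, Set.mem_compl_iff, not_not] at h10
  obtain ⟨q, hq⟩ := h10
  exact exists_point x q.asIdeal q.2 (congrArg PrimeSpectrum.asIdeal hq)

end Pool.Agent.Helper87.Rig
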